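import Pool.Agent.H14.AVS.S4

/-!
# AVS, module BIN: invariants at infinity
-/

set_option autoImplicit false

namespace Pool.AVS

open Polynomial Matrix Pool.AVR

namespace BIN

/-- `reflect` as an additive map. -/
noncomputable def refH (F : Type) [Field F] (N : ℕ) : F[X] →+ F[X] where
  toFun := reflect N
  map_zero' := reflect_zero
  map_add' := fun x y => reflect_add x y N

theorem refH_apply (F : Type) [Field F] (N : ℕ) (p : F[X]) : refH F N p = reflect N p := rfl

theorem ref_mul (F : Type) [Field F] (N N' M : ℕ) (p p' : F[X])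
    (hp : p.natDegree ≤ N) (hp' : p'.natDegree ≤ N') (hM : M = N + N') :
    refH F M (p * p') = refH F N p * refH F N' p' := by
  subst hM
  exact reflect_mul p p' hp hp'

theorem ref_natmul (F : Type) [Field F] (N k : ℕ) (p : F[X]) :
    refH F N ((k : F[X]) * p) = (k : F[X]) * refH F N p := by
  rw [← nsmul_eq_mul, map_nsmul, nsmul_eq_mul]

theorem ndm {F : Type} [Field F] {p q : F[X]} {a b c : ℕ} (hp : p.natDegree ≤ a)
    (hq : q.natDegree ≤ b) (hc : c = a + b) : (p * q).natDegree ≤ c := by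
  subst hc
  exact natDegree_mul_le.trans (Nat.add_le_add hp hq)

theorem ndn {F : Type} [Field F] (k : ℕ) {p : F[X]} {a : ℕ} (hp : p.natDegree ≤ a) :
    ((k : F[X]) * p).natDegree ≤ a := by
  refine natDegree_mul_le.trans ?_
  rw [natDegree_natCast, zero_add]
  exact hp

theorem nda {F : Type} [Field F] {p q : F[X]} {a : ℕ} (hp : p.natDegree ≤ a)
    (hq : q.natDegree ≤ a) : (p + q).natDegree ≤ a :=
  (natDegree_add_le p q).trans (max_le hp hq)

theorem nds {F : Type} [Field F] {p q : F[X]} {a : ℕ} (hp : p.natDegree ≤ a)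
    (hq : q.natDegree ≤ a) : (p - q).natDegree ≤ a :=
  (natDegree_sub_le p q).trans (max_le hp hq)

theorem disc_eq (R : Type) [CommRing R] (x y z : R) : disc x y z =
    ((x * x) * (y * y) - (4 : ℕ) * ((y * y) * y) - (4 : ℕ) * (((x * x) * x) * z) +
      (18 : ℕ) * ((x * y) * z)) - (27 : ℕ) * (z * z) := by
  unfold disc
  push_cast
  ring

theorem disc_reflect (F : Type) [Field F] (n : ℕ) (a b c : F[X]) (ha : a.natDegree ≤ 2 * n)
    (hb : b.natDegree ≤ 4 * n) (hc : c.natDegree ≤ 6 * n) :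
    disc (refH F (2 * n) a) (refH F (4 * n) b) (refH F (6 * n) c) =
      refH F (12 * n) (disc a b c) := by
  have tk : ∀ (k N : ℕ) (x : F[X]), refH F N ((k : F[X]) * x) = (k : F[X]) *
    refH F N x := fun k N x => ref_natmul F N k x
  rw [disc_eq, disc_eq]
  rw [map_sub, map_add, map_sub, map_sub, tk, tk, tk, tk,
    ref_mul F (4 * n) (8 * n) (12 * n) (a * a) (b * b)
      (ndm ha ha (by omega)) (ndm hb hb (by omega)) (by omega),
    ref_mul F (8 * n) (4 * n) (12 * n) (b * b) b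
      (ndm hb hb (by omega)) hb (by omega),
    ref_mul F (4 * n) (4 * n) (8 * n) b b hb hb (by omega),
    ref_mul F (6 * n) (6 * n) (12 * n) (a * a * a) c
      (ndm (ndm ha ha rfl) ha (by omega)) hc (by omega),
    ref_mul F (4 * n) (2 * n) (6 * n) (a * a) a
      (ndm ha ha (by omega)) ha (by omega),
    ref_mul F (2 * n) (2 * n) (4 * n) a a ha ha (by omega),
    ref_mul F (6 * n) (6 * n) (12 * n) (a * b) c
      (ndm ha hb (by omega)) hc (by omega),
    ref_mul F (2 * n) (4 * n) (6 * n) a b ha hb (by omega),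
    ref_mul F (6 * n) (6 * n) (12 * n) c c hc hc (by omega)]

theorem det_eq (R : Type) [CommRing R] (p q r s u w : R) :
    (!![p, q, r; q, s, u; r, u, w] : Matrix (Fin 3) (Fin 3) R).det =
      p * s * w - r * r * s + (2 : ℕ) * (q * u * r) - p * u * u - q * q * w := by
  rw [Matrix.det_fin_three]
  simp
  ring

end BIN

theorem bin_thm : BINStmt := by
  intro F _ n m hmn B hB
  obtain ⟨hT, hdeg⟩ := hB
  have hd : ∀ i j, (B i j).natDegree ≤ (2 * (n : ℤ) + dd m i + dd m j).toNat := by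
    intro i j
    by_cases h0 : B i j = 0
    · rw [h0]; simp
    · have := hdeg i j h0
      omega
  have hs : ∀ i j, B i j = B j i := fun i j => by
    have := congrFun (congrFun hT j) i
    rwa [Matrix.transpose_apply] at this
  have hBe : B = !![B 0 0, B 0 1, B 0 2; B 0 1, B 1 1, B 1 2; B 0 2, B 1 2, B 2 2] := by
    ext1 i j
    fin_cases i <;> fin_cases j <;> simp [hs 1 0, hs 2 0, hs 2 1]
  have e00 : (2 * (n : ℤ) + dd m 0 + dd m 0).toNat = 2 * n - 2 * m := by simp [dd]; omega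
  have e01 : (2 * (n : ℤ) + dd m 0 + dd m 1).toNat = 2 * n - m := by simp [dd]; omega
  have e02 : (2 * (n : ℤ) + dd m 0 + dd m 2).toNat = 2 * n := by simp [dd]; omega
  have e11 : (2 * (n : ℤ) + dd m 1 + dd m 1).toNat = 2 * n := by simp [dd]; omega
  have e12 : (2 * (n : ℤ) + dd m 1 + dd m 2).toNat = 2 * n + m := by simp [dd]; omega
  have e22 : (2 * (n : ℤ) + dd m 2 + dd m 2).toNat = 2 * n + 2 * m := by simp [dd]; omega
  have e10 : (2 * (n : ℤ) + dd m 1 + dd m 0).toNat = 2 * n - m := by simp [dd]; omega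
  have e20 : (2 * (n : ℤ) + dd m 2 + dd m 0).toNat = 2 * n := by simp [dd]; omega
  have e21 : (2 * (n : ℤ) + dd m 2 + dd m 1).toNat = 2 * n + m := by simp [dd]; omega
  have d00 := hd 0 0
  have d01 := hd 0 1
  have d02 := hd 0 2
  have d11 := hd 1 1
  have d12 := hd 1 2
  have d22 := hd 2 2
  rw [e00] at d00
  rw [e01] at d01
  rw [e02] at d02
  rw [e11] at d11
  rw [e12] at d12
  rw [e22] at d22
  have hTop : Binf n m B =
      !![BIN.refH F (2 * n - 2 * m) (B 0 0), BIN.refH F (2 * n - m) (B 0 1),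
          BIN.refH F (2 * n) (B 0 2);
        BIN.refH F (2 * n - m) (B 0 1), BIN.refH F (2 * n) (B 1 1), BIN.refH F (2 * n + m) (B 1 2);
        BIN.refH F (2 * n) (B 0 2), BIN.refH F (2 * n + m) (B 1 2),
          BIN.refH F (2 * n + 2 * m) (B 2 2)] := by
    unfold Binf
    ext1 i j
    fin_cases i <;> fin_cases j <;>
      simp [hs 1 0, hs 2 0, hs 2 1, e00, e01, e02, e10, e11, e12, e20, e21, e22,
        BIN.refH_apply]
  have hnd : ia B = -((2 : ℕ) * B 0 2 + B 1 1) := by
    unfold ia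
    push_cast
    rfl
  have hnb : ib B = (2 : ℕ) * (B 0 2 * B 1 1) - (2 : ℕ) * (B 0 1 * B 1 2) + B 0 2 * B 0 2 -
      B 0 0 * B 2 2 := by
    unfold ib
    push_cast
    ring
  have hnc : ic B = B 0 0 * B 1 1 * B 2 2 - B 0 2 * B 0 2 * B 1 1 +
      (2 : ℕ) * (B 0 1 * B 1 2 * B 0 2) - B 0 0 * B 1 2 * B 1 2 - B 0 1 * B 0 1 * B 2 2 := by
    unfold ic
    conv_lhs => rw [hBe]
    rw [BIN.det_eq]
  have hna' : ia (Binf n m B) = -((2 : ℕ) * BIN.refH F (2 * n) (B 0 2) +
      BIN.refH F (2 * n) (B 1 1)) := by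
    rw [hTop]
    unfold ia
    push_cast
    simp
  have hnb' : ib (Binf n m B) = (2 : ℕ) * (BIN.refH F (2 * n) (B 0 2) *
      BIN.refH F (2 * n) (B 1 1)) - (2 : ℕ) * (BIN.refH F (2 * n - m) (B 0 1) *
      BIN.refH F (2 * n + m) (B 1 2)) + BIN.refH F (2 * n) (B 0 2) * BIN.refH F (2 * n) (B 0 2) -
      BIN.refH F (2 * n - 2 * m) (B 0 0) * BIN.refH F (2 * n + 2 * m) (B 2 2) := by
    rw [hTop]
    unfold ib
    push_cast
    simp
    ring
  have hnc' : ic (Binf n m B) = BIN.refH F (2 * n - 2 * m) (B 0 0) * BIN.refH F (2 * n) (B 1 1) *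
      BIN.refH F (2 * n + 2 * m) (B 2 2) - BIN.refH F (2 * n) (B 0 2) *
      BIN.refH F (2 * n) (B 0 2) * BIN.refH F (2 * n) (B 1 1) +
      (2 : ℕ) * (BIN.refH F (2 * n - m) (B 0 1) * BIN.refH F (2 * n + m) (B 1 2) *
      BIN.refH F (2 * n) (B 0 2)) - BIN.refH F (2 * n - 2 * m) (B 0 0) *
      BIN.refH F (2 * n + m) (B 1 2) * BIN.refH F (2 * n + m) (B 1 2) -
      BIN.refH F (2 * n - m) (B 0 1) * BIN.refH F (2 * n - m) (B 0 1) *
      BIN.refH F (2 * n + 2 * m) (B 2 2) := by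
    rw [hTop]
    unfold ic
    rw [BIN.det_eq]
  have hsym : (Binf n m B)ᵀ = Binf n m B := by
    rw [hTop]
    ext1 i j
    fin_cases i <;> fin_cases j <;> rfl
  generalize B 0 0 = p at *
  generalize B 0 1 = q at *
  generalize B 0 2 = r at *
  generalize B 1 1 = s at *
  generalize B 1 2 = u at *
  generalize B 2 2 = w at *
  have t00 := d00
  have fa : (ia B).natDegree ≤ 2 * n := by
    rw [hnd, natDegree_neg]
    exact BIN.nda (BIN.ndn 2 d02) d11
  have fb : (ib B).natDegree ≤ 4 * n := by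
    rw [hnb]
    exact BIN.nds (BIN.nda (BIN.nds
      (BIN.ndn 2 (BIN.ndm d02 d11 (by omega))) (BIN.ndn 2 (BIN.ndm d01 d12 (by omega))))
        (BIN.ndm d02 d02 (by omega))) (BIN.ndm d00 d22 (by omega))
  have fc : (ic B).natDegree ≤ 6 * n := by
    rw [hnc]
    exact BIN.nds (BIN.nds (BIN.nda (BIN.nds
      (BIN.ndm (BIN.ndm d00 d11 rfl) d22 (by omega))
      (BIN.ndm (BIN.ndm d02 d02 rfl) d11 (by omega)))
      (BIN.ndn 2 (BIN.ndm (BIN.ndm d01 d12 rfl) d02 (by omega))))
      (BIN.ndm (BIN.ndm d00 d12 rfl) d12 (by omega)))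
      (BIN.ndm (BIN.ndm d01 d01 rfl) d22 (by omega))
  have tk : ∀ (k N : ℕ) (x : F[X]), BIN.refH F N ((k : F[X]) * x) = (k : F[X]) *
    BIN.refH F N x := fun k N x => BIN.ref_natmul F N k x
  have a1 : ia (Binf n m B) = BIN.refH F (2 * n) (ia B) := by
    rw [hna', hnd, map_neg, map_add, tk]
  have a2 : ib (Binf n m B) = BIN.refH F (4 * n) (ib B) := by
    rw [hnb', hnb, map_sub, map_add, map_sub, tk, tk,
        BIN.ref_mul F (2 * n) (2 * n) (4 * n) r s d02 d11 (by omega),
        BIN.ref_mul F (2 * n) (2 * n) (4 * n) r r d02 d02 (by omega),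
        BIN.ref_mul F (2 * n - m) (2 * n + m) (4 * n) q u d01 d12 (by omega),
        BIN.ref_mul F (2 * n - 2 * m) (2 * n + 2 * m) (4 * n) p w d00 d22
          (by omega)]
  have a3 : ic (Binf n m B) = BIN.refH F (6 * n) (ic B) := by
    rw [hnc', hnc, map_sub, map_sub, map_add, map_sub, tk,
        BIN.ref_mul F (4 * n - 2 * m) (2 * n + 2 * m) (6 * n) (p * s) w
          (BIN.ndm d00 d11 (by omega)) d22 (by omega),
        BIN.ref_mul F (2 * n - 2 * m) (2 * n) (4 * n - 2 * m) p s d00 d11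
          (by omega),
        BIN.ref_mul F (4 * n) (2 * n) (6 * n) (r * r) s
          (BIN.ndm d02 d02 (by omega)) d11 (by omega),
        BIN.ref_mul F (2 * n) (2 * n) (4 * n) r r d02 d02 (by omega),
        BIN.ref_mul F (4 * n) (2 * n) (6 * n) (q * u) r
          (BIN.ndm d01 d12 (by omega)) d02 (by omega),
        BIN.ref_mul F (2 * n - m) (2 * n + m) (4 * n) q u d01 d12 (by omega),
        BIN.ref_mul F (4 * n - m) (2 * n + m) (6 * n) (p * u) u
          (BIN.ndm d00 d12 (by omega)) d12 (by omega),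
        BIN.ref_mul F (2 * n - 2 * m) (2 * n + m) (4 * n - m) p u d00 d12
          (by omega),
        BIN.ref_mul F (4 * n - 2 * m) (2 * n + 2 * m) (6 * n) (q * q) w
          (BIN.ndm d01 d01 (by omega)) d22 (by omega),
        BIN.ref_mul F (2 * n - m) (2 * n - m) (4 * n - 2 * m) q q d01 d01
          (by omega)]
  refine ⟨hsym, ⟨fa, fb, fc⟩, a1, a2, a3, ?_⟩
  show disc (ia (Binf n m B)) (ib (Binf n m B)) (ic (Binf n m B)) = _
  rw [a1, a2, a3, BIN.disc_reflect F n _ _ _ fa fb fc]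
  rfl

end Pool.AVS
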