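import Pool.Agent.H14.AVS.S4
import Pool.Agent.H96.AVR.ST2

/-!
# AVS, module RKR: the curves with rational points of order two do not contribute
-/

set_option autoImplicit false

namespace Pool.AVS

open Polynomial Matrix Pool.AVR

namespace RKR

theorem final_ineq (q ε : ℝ) (hq : 3 ≤ q) (hε : 0 < ε) (n : ℕ) (hn : 1 ≤ n)
    (DD EE R SR SX : ℝ) (hR : R ≤ 2 * q ^ (8 * n + 3))
    (hE : q ^ (12 * n + 3) ≤ EE + 2 * q ^ (8 * n + 3))
    (hSR : SR ≤ SX + 4 * R)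
    (hSX : SX ≤ 8 * (q ^ (12 * n + 6) * (2 * (ε / (64 * q ^ 3)) + DD)))
    (hN : 15 * q ^ (8 * n + 3) + 8 * (q ^ (12 * n + 6) * DD) ≤ ε / 4 * q ^ (12 * n + 3)) :
    SR ≤ ε * EE := by
  have hq0 : 0 < q := by linarith
  have hδT : q ^ (12 * n + 6) * (2 * (ε / (64 * q ^ 3)) + DD) =
      ε / 32 * q ^ (12 * n + 3) + q ^ (12 * n + 6) * DD := by
    have hpow : q ^ (12 * n + 6) = q ^ (12 * n + 3) * q ^ 3 := by
      rw [← pow_add]
    rw [hpow]
    field_simp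
    ring
  have h12 : 4 * q ^ (8 * n + 3) ≤ q ^ (12 * n + 3) := by
    have h13 : q ^ (12 * n + 3) = q ^ (8 * n + 3) * q ^ (4 * n) := by
      rw [← pow_add, show 12 * n + 3 = 8 * n + 3 + 4 * n by omega]
    have h14 : 4 ≤ q ^ (4 * n) := by
      calc (4 : ℝ) ≤ q ^ 2 := by nlinarith
        _ ≤ q ^ (4 * n) := pow_le_pow_right₀ (by linarith) (by omega)
    have hP0 : 0 < q ^ (8 * n + 3) := by positivity
    rw [h13]
    nlinarith
  rw [hδT] at hSX
  have hP0 : 0 < q ^ (8 * n + 3) := by positivity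
  generalize q ^ (8 * n + 3) = P at *
  generalize q ^ (12 * n + 3) = T at *
  generalize q ^ (12 * n + 6) * DD = V at *
  have h2 : ε * (T / 2) ≤ ε * EE := mul_le_mul_of_nonneg_left (by linarith) hε.le
  linarith

end RKR

open Classical in
theorem rkr_thm (hFIN : FINStmt) (hSTE : STEStmt) (hRED : REDStmt)
    (hGRP : GRPStmt) (hCNB : CNBStmt) (hCNF : CNFStmt) (hDSC : DSCStmt) : RKRStmt := by
  intro F _ _ h2 ε hε
  have h3 := ST2.three_le h2
  set q : ℝ := (Nat.card F : ℝ) with hqdef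
  have hq : 3 ≤ q := by
    rw [hqdef]
    exact_mod_cast h3
  have hq0 : 0 < q := by linarith
  set δ : ℝ := ε / (64 * q ^ 3) with hδ
  have hδ0 : 0 < δ := by positivity
  obtain ⟨D, hDR⟩ := hRED F h2 δ hδ0
  obtain ⟨N, hN1, hN⟩ := ST2.largeN q (ε / 4) hq (by positivity) D
  refine ⟨N, fun n hn => ?_⟩
  have hn1 : 1 ≤ n := hN1.trans hn
  obtain ⟨hFamfin, hFamcard, hBad⟩ := hCNF F h2 n hn1
  have hRsub : ST2.Rd F n ⊆ Fam F n := fun f hf => hf.1
  have hRfin : (ST2.Rd F n).Finite := hFamfin.subset hRsub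
  have hstab : ∀ B : Matrix (Fin 3) (Fin 3) F[X], Bᵀ = B →
      (∃ f ∈ ST2.Rd F n, (AA F[X] * B).charpoly = cubP f) →
      {g : Matrix (Fin 3) (Fin 3) F[X] | gᵀ * AA F[X] * g = AA F[X] ∧ gᵀ * B * g = B ∧
        g.det = 1}.Finite ∧
      {g : Matrix (Fin 3) (Fin 3) F[X] | gᵀ * AA F[X] * g = AA F[X] ∧ gᵀ * B * g = B ∧
        g.det = 1}.ncard ≤ 8 := by
    rintro B hB ⟨f, hf, hc⟩
    exact ST2.stab hSTE h2 B hB f hf.2.1 hc
  obtain ⟨hXfin, hXsum⟩ := hFIN F h2 n 8 (ST2.Rd F n) hRsub (fun f hf => hf.2.1) hstab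
  have hXfin' : ∀ f ∈ ST2.Rd F n, (ST2.XX f).Finite := hXfin
  have hcl : ∀ f ∈ ST2.Rd F n, Finite (Mod2 (EK f)) ∧
      Nat.card (Mod2 (EK f)) ≤ (ST2.XX f).ncard + 4 := fun f hf => ST2.classes f (hXfin' f hf)
  have hEll := ST2.Ell_eq (F := F) hDSC h2 n
  have hdiff : Ell F n \ Irr F n = ST2.Rd F n := by
    rw [hEll, Set.union_sdiff_left]
    exact sdiff_eq_left.mpr (ST2.disj n).symm
  have hIfin : (Irr F n).Finite := hFamfin.subset (fun f hf => hf.1)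
  have hEfin : (Ell F n).Finite := by
    rw [hEll]
    exact hIfin.union hRfin
  have hXsum' : ∑ᶠ f ∈ ST2.Rd F n, ((ST2.XX f).ncard : ℝ) ≤
      (8 : ℕ) * ∑ m ∈ Finset.range (n + 1),
        ({B : Matrix (Fin 3) (Fin 3) F[X] | Bd n m B ∧
          ∃ f ∈ ST2.Rd F n, (AA F[X] * B).charpoly = cubP f}.ncard : ℝ) / (GG F m).ncard := hXsum
  have hcardE : ((Ell F n).ncard : ℝ) = (Irr F n).ncard + (ST2.Rd F n).ncard := by
    rw [hEll, Set.ncard_union_eq (ST2.disj n) hIfin hRfin]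
    push_cast
    rfl
  have hRcard : ((ST2.Rd F n).ncard : ℝ) ≤ 2 * q ^ (8 * n + 3) := by
    have hsub : ST2.Rd F n ⊆ {f ∈ Fam F n | ¬ (Irreducible (cubK f) ∧ (cubK f).Separable)} :=
      fun f hf => ⟨hf.1, fun h => hf.2.2 h.1⟩
    have h5 := (Set.ncard_le_ncard hsub (hFamfin.subset (fun f hf => hf.1))).trans hBad
    rw [hqdef]
    exact_mod_cast h5
  have hIcard : q ^ (12 * n + 3) ≤ (Irr F n).ncard + 2 * q ^ (8 * n + 3) := by
    have hsub : Fam F n ⊆ Irr F n ∪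
        {f ∈ Fam F n | ¬ (Irreducible (cubK f) ∧ (cubK f).Separable)} := by
      intro f hf
      by_cases h : Irreducible (cubK f) ∧ (cubK f).Separable
      · exact Or.inl ⟨hf, h.1, h.2⟩
      · exact Or.inr ⟨hf, h⟩
    have h5 := (Set.ncard_le_ncard hsub (hIfin.union (hFamfin.subset (fun f hf => hf.1)))).trans
      (Set.ncard_union_le _ _)
    rw [hFamcard] at h5
    have h6 := h5.trans (Nat.add_le_add_left hBad _)
    rw [hqdef]
    exact_mod_cast h6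
  have hEcard : q ^ (12 * n + 3) ≤ (Ell F n).ncard + 2 * q ^ (8 * n + 3) := by
    rw [hcardE]
    have : (0 : ℝ) ≤ (ST2.Rd F n).ncard := Nat.cast_nonneg _
    linarith
  have hsumR1 : ∑ᶠ f ∈ ST2.Rd F n, (Nat.card (Mod2 (EK f)) : ℝ) ≤
      ∑ᶠ f ∈ ST2.Rd F n, ((ST2.XX f).ncard : ℝ) + 4 * (ST2.Rd F n).ncard := by
    rw [finsum_mem_eq_finite_toFinset_sum _ hRfin, finsum_mem_eq_finite_toFinset_sum _ hRfin,
      Set.ncard_eq_toFinset_card _ hRfin]
    have h7 : ∀ f ∈ hRfin.toFinset, (Nat.card (Mod2 (EK f)) : ℝ) ≤ (ST2.XX f).ncard + 4 := by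
      intro f hf
      exact_mod_cast (hcl f ((Set.Finite.mem_toFinset _).mp hf)).2
    refine (Finset.sum_le_sum h7).trans ?_
    rw [Finset.sum_add_distrib, Finset.sum_const, nsmul_eq_mul]
    linarith
  have hBsum : ∑ m ∈ Finset.range (n + 1),
        ({B : Matrix (Fin 3) (Fin 3) F[X] | Bd n m B ∧
          ∃ f ∈ ST2.Rd F n, (AA F[X] * B).charpoly = cubP f}.ncard : ℝ) / (GG F m).ncard ≤
      q ^ (12 * n + 6) * (2 * δ + D * (q ^ D / q ^ n)) := by
    apply ST2.sumM q δ hq hδ0 D n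
      (fun m => ({B : Matrix (Fin 3) (Fin 3) F[X] | Bd n m B ∧
          ∃ f ∈ ST2.Rd F n, (AA F[X] * B).charpoly = cubP f}.ncard : ℝ))
      (fun m => ((GG F m).ncard : ℝ))
    · intro m
      positivity
    · intro m hm
      obtain ⟨hf, hc⟩ := hCNB F n m hm
      have h8 : {B : Matrix (Fin 3) (Fin 3) F[X] | Bd n m B ∧
          ∃ f ∈ ST2.Rd F n, (AA F[X] * B).charpoly = cubP f}.ncard ≤ Nat.card F ^ (12 * n + 6) :=
        (Set.ncard_le_ncard (fun B hB => hB.1) hf).trans hc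
      rw [hqdef]
      exact_mod_cast h8
    · intro m hm
      obtain ⟨hf, _⟩ := hCNB F n m (by omega)
      refine le_trans ?_ (hDR n m hm)
      have h9 : {B : Matrix (Fin 3) (Fin 3) F[X] | Bd n m B ∧
          ∃ f ∈ ST2.Rd F n, (AA F[X] * B).charpoly = cubP f} ⊆
          {B : Matrix (Fin 3) (Fin 3) F[X] | Bd n m B ∧ ∃ f ∈ Fam F n,
            ¬ Irreducible (cubK f) ∧ (AA F[X] * B).charpoly = cubP f} := by
        rintro B ⟨hB, f, hf', hc⟩
        exact ⟨hB, f, hf'.1, hf'.2.2, hc⟩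
      exact_mod_cast Set.ncard_le_ncard h9 (hf.subset (fun B hB => hB.1))
    · intro m
      exact ST2.GG_ge hGRP h2 m
  have hNn := hN n hn
  rw [hdiff]
  exact RKR.final_ineq q ε hq hε n hn1 (D * (q ^ D / q ^ n)) _ _ _ _ hRcard
    hEcard hsumR1 (by
      refine hXsum'.trans ?_
      push_cast
      linarith) hNn

end Pool.AVS
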